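import Pool.Agent.Helper6.EC_B.Goals

/-!
# Packet GRAF: the addition theorem, from the shifted integrals
-/

open MeasureTheory Filter Topology Set

namespace EC237.PB.PkGRAF

/-- `exp (-(a cosh u))` is integrable. -/
theorem integrable_exp_cosh {a : ℝ} (ha : 0 < a) :
    Integrable (fun u : ℝ => Real.exp (-(a * Real.cosh u))) (volume.restrict (Ioi (0:ℝ))) := by
  have h := exp_neg_integrableOn_Ioi (0:ℝ) (half_pos ha)
  refine Integrable.mono' h ?_ ?_
  · exact (by fun_prop : Continuous fun u : ℝ => Real.exp (-(a * Real.cosh u))).aestronglyMeasurable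
  · refine Filter.Eventually.of_forall fun u => ?_
    rw [Real.norm_eq_abs, abs_of_pos (Real.exp_pos _)]
    apply Real.exp_le_exp.2
    have h1 : u + 1 ≤ Real.exp u := Real.add_one_le_exp u
    have h2 : Real.cosh u = (Real.exp u + Real.exp (-u)) / 2 := Real.cosh_eq u
    have h3 : 0 < Real.exp (-u) := Real.exp_pos _
    have h4 : u / 2 ≤ Real.cosh u := by
      rw [h2]
      linarith
    nlinarith

theorem thm (gl1 : G_GL1) (gl2 : G_GL2) : G_GRAF := by
  intro t c ht hc
  have hpi : (0:ℝ) < Real.pi := Real.pi_pos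
  -- the integrand
  set F : ℝ → ℝ → ℝ := fun φ u =>
    Real.exp (-(t * (c - Real.cos φ) * Real.cosh u)) * Real.cos (t * Real.sin φ * Real.sinh u)
    with hF
  have hK : ∀ φ : ℝ, Kb (t * Real.sqrt (1 + c ^ 2 - 2 * c * Real.cos φ)) =
      ∫ u in Ioi (0:ℝ), F φ u := by
    intro φ
    have hA : 0 < t * (c - Real.cos φ) := by
      have := Real.cos_le_one φ
      exact mul_pos ht (by linarith)
    rw [hF, gl1 _ _ hA]
    refine congrArg Kb ?_
    have e : (t * (c - Real.cos φ)) ^ 2 + (t * Real.sin φ) ^ 2 =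
        t ^ 2 * (1 + c ^ 2 - 2 * c * Real.cos φ) := by
      have := Real.sin_sq_add_cos_sq φ
      linear_combination t ^ 2 * this
    rw [e, Real.sqrt_mul (sq_nonneg t), Real.sqrt_sq ht.le]
  have hint : Integrable (Function.uncurry F)
      ((volume.restrict (Ioc (0:ℝ) Real.pi)).prod (volume.restrict (Ioi (0:ℝ)))) := by
    have hg : Integrable (fun p : ℝ × ℝ => Real.exp (-(t * (c - 1) * Real.cosh p.2)))
        ((volume.restrict (Ioc (0:ℝ) Real.pi)).prod (volume.restrict (Ioi (0:ℝ)))) :=
      Integrable.comp_snd (integrable_exp_cosh (mul_pos ht (by linarith)))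
        (volume.restrict (Ioc (0:ℝ) Real.pi))
    refine Integrable.mono' hg ?_ ?_
    · exact (by rw [hF]; fun_prop : Continuous (Function.uncurry F)).aestronglyMeasurable
    · refine Filter.Eventually.of_forall fun p => ?_
      rw [Real.norm_eq_abs]
      show |Real.exp (-(t * (c - Real.cos p.1) * Real.cosh p.2)) *
        Real.cos (t * Real.sin p.1 * Real.sinh p.2)| ≤ _
      rw [abs_mul, abs_of_pos (Real.exp_pos _)]
      have h1 := Real.abs_cos_le_one (t * Real.sin p.1 * Real.sinh p.2)
      have h2 : Real.exp (-(t * (c - Real.cos p.1) * Real.cosh p.2)) ≤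
          Real.exp (-(t * (c - 1) * Real.cosh p.2)) := by
        apply Real.exp_le_exp.2
        have h3 := Real.cos_le_one p.1
        have h4 := Real.cosh_pos p.2
        have h5 : t * (c - 1) * Real.cosh p.2 ≤ t * (c - Real.cos p.1) * Real.cosh p.2 :=
          mul_le_mul_of_nonneg_right (mul_le_mul_of_nonneg_left (by linarith) ht.le) h4.le
        linarith
      calc _ ≤ Real.exp (-(t * (c - Real.cos p.1) * Real.cosh p.2)) * 1 :=
            mul_le_mul_of_nonneg_left h1 (Real.exp_pos _).le
        _ ≤ _ := by rw [mul_one]; exact h2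
  have hin : ∀ u : ℝ, ∫ φ in Ioc (0:ℝ) Real.pi, F φ u =
      Real.exp (-(c * t * Real.cosh u)) * (Real.pi * Ib t) := by
    intro u
    have h2 := gl2 t u
    rw [← intervalIntegral.integral_of_le hpi.le]
    have e : ∀ φ : ℝ, F φ u = Real.exp (-(c * t * Real.cosh u)) *
        (Real.exp (t * Real.cosh u * Real.cos φ) *
          Real.cos (t * Real.sinh u * Real.sin φ)) := by
      intro φ
      rw [hF, ← mul_assoc, ← Real.exp_add]
      show Real.exp (-(t * (c - Real.cos φ) * Real.cosh u)) *
        Real.cos (t * Real.sin φ * Real.sinh u) = _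
      refine congrArg₂ (fun a b => a * b) (congrArg Real.exp ?_) (congrArg Real.cos ?_) <;> ring
    simp_rw [e]
    rw [intervalIntegral.integral_const_mul]
    refine congrArg (fun r => Real.exp (-(c * t * Real.cosh u)) * r) ?_
    rw [← h2]
    field_simp
  have key : ∫ φ in (0:ℝ)..Real.pi, Kb (t * Real.sqrt (1 + c ^ 2 - 2 * c * Real.cos φ)) =
      Real.pi * Ib t * Kb (c * t) := by
    rw [intervalIntegral.integral_of_le hpi.le]
    simp_rw [hK]
    rw [MeasureTheory.integral_integral_swap hint]
    simp_rw [hin]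
    rw [MeasureTheory.integral_mul_const]
    show Kb (c * t) * (Real.pi * Ib t) = _
    ring
  rw [key]
  field_simp

end EC237.PB.PkGRAF
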