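import Pool.Agent.Helper6.EC_B.Basic

/-!
# Packet NAS: the size of `N`
-/

open MeasureTheory Filter Topology Set

noncomputable section

namespace EC237.PB.PkNAS

/-- The tail integral. -/
def MM (z : ℝ) : ℝ := ∫ q in Ioi z, Wf q / (2 * q)

/-- The remainder. -/
def RR (q : ℝ) : ℝ := (Wf q + Real.log q + gam) / (2 * q)

section

variable (C : ℝ) (hC0 : 0 ≤ C) (hm : Measurable Wf) (hn : ∀ q, 0 ≤ Wf q)
  (h1 : ∀ q, 0 < q → q ≤ 1 → |Wf q + Real.log q + gam| ≤ C * Real.sqrt q)
  (h2 : ∀ q, 1 ≤ q → Wf q ≤ C / q)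

include hm in
theorem meas_int : Measurable (fun q => Wf q / (2 * q)) :=
  hm.div (by fun_prop)

include hC0 hm hn h2 in
theorem int_ge {z : ℝ} (hz : 1 ≤ z) : IntegrableOn (fun q => Wf q / (2 * q)) (Ioi z) ∧
    MM z ≤ C / (2 * z) := by
  have hz0 : 0 < z := by linarith
  have hi : IntegrableOn (fun q : ℝ => C / 2 * q ^ (-2 : ℝ)) (Ioi z) :=
    (integrableOn_Ioi_rpow_of_lt (by norm_num) hz0).const_mul _
  have hb : ∀ q ∈ Ioi z, Wf q / (2 * q) ≤ C / 2 * q ^ (-2 : ℝ) := by
    intro q hq
    have hq' : z < q := hq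
    have hq0 : 0 < q := by linarith
    have e : q ^ (-2 : ℝ) = 1 / q / q := by
      rw [Real.rpow_neg hq0.le]
      rw [show (2:ℝ) = ((2:ℕ):ℝ) by norm_num, Real.rpow_natCast]
      field_simp
    rw [e]
    have := h2 q (by linarith)
    calc Wf q / (2 * q) ≤ (C / q) / (2 * q) := by gcongr
      _ = _ := by field_simp
  have hint : IntegrableOn (fun q => Wf q / (2 * q)) (Ioi z) := by
    refine Integrable.mono' hi (meas_int hm).aestronglyMeasurable ?_
    refine (ae_restrict_iff' measurableSet_Ioi).2 (Filter.Eventually.of_forall fun q hq => ?_)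
    have hq' : z < q := hq
    have hq0 : 0 < q := by linarith
    rw [Real.norm_eq_abs, abs_of_nonneg (div_nonneg (hn q) (by linarith))]
    exact hb q hq
  refine ⟨hint, ?_⟩
  unfold MM
  calc ∫ q in Ioi z, Wf q / (2 * q) ≤ ∫ q in Ioi z, C / 2 * q ^ (-2 : ℝ) :=
        setIntegral_mono_on hint hi measurableSet_Ioi hb
    _ = C / 2 * ∫ q in Ioi z, q ^ (-2 : ℝ) := integral_const_mul _ _
    _ = C / (2 * z) := by
        rw [integral_Ioi_rpow_of_lt (by norm_num) hz0]
        have : (-2 : ℝ) + 1 = -1 := by norm_num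
        rw [this, Real.rpow_neg_one]
        field_simp

include hC0 hm hn h1 in
theorem int_mid {z : ℝ} (hz : 0 < z) : IntegrableOn (fun q => Wf q / (2 * q)) (Ioc z 1) := by
  refine Measure.integrableOn_of_bounded (M := (C + |Real.log z| + |gam|) / (2 * z)) ?_
    (meas_int hm).aestronglyMeasurable ?_
  · exact measure_Ioc_lt_top.ne
  · refine (ae_restrict_iff' measurableSet_Ioc).2 (Filter.Eventually.of_forall fun q hq => ?_)
    obtain ⟨hq1, hq2⟩ := hq
    have hq0 : 0 < q := by linarith
    rw [Real.norm_eq_abs, abs_of_nonneg (div_nonneg (hn q) (by linarith))]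
    have a1 := h1 q hq0 hq2
    have a2 : Real.sqrt q ≤ 1 := by
      rw [show (1:ℝ) = Real.sqrt 1 by simp]
      exact Real.sqrt_le_sqrt hq2
    have a3 : Wf q ≤ C + |Real.log z| + |gam| := by
      have b1 := le_abs_self (Wf q + Real.log q + gam)
      have b2 : -Real.log q ≤ |Real.log z| := by
        have : Real.log z ≤ Real.log q := Real.log_le_log hz hq1.le
        have := neg_abs_le (Real.log z)
        linarith
      have b3 := neg_abs_le gam
      have b4 : C * Real.sqrt q ≤ C * 1 := by gcongr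
      linarith
    have a4 : 0 ≤ C + |Real.log z| + |gam| := by positivity
    calc Wf q / (2 * q) ≤ (C + |Real.log z| + |gam|) / (2 * q) := by gcongr
      _ ≤ (C + |Real.log z| + |gam|) / (2 * z) := by gcongr

include hC0 hm hn h1 h2 in
theorem int_all {z : ℝ} (hz : 0 < z) : IntegrableOn (fun q => Wf q / (2 * q)) (Ioi z) := by
  rcases le_total 1 z with h | h
  · exact (int_ge C hC0 hm hn h2 h).1
  · have e : Ioi z = Ioc z 1 ∪ Ioi 1 := (Ioc_union_Ioi_eq_Ioi h).symm
    rw [e]
    exact (int_mid C hC0 hm hn h1 hz).union (int_ge C hC0 hm hn h2 le_rfl).1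

include hn in
theorem MM_nonneg {z : ℝ} (hz : 0 < z) : 0 ≤ MM z := by
  unfold MM
  refine setIntegral_nonneg measurableSet_Ioi fun q hq => ?_
  have hq' : z < q := hq
  exact div_nonneg (hn q) (by linarith)

include hC0 hm hn h1 h2 in
theorem MM_anti {z w : ℝ} (hz : 0 < z) (hzw : z ≤ w) : MM w ≤ MM z := by
  unfold MM
  refine setIntegral_mono_set (int_all C hC0 hm hn h1 h2 hz) ?_ ?_
  · refine (ae_restrict_iff' measurableSet_Ioi).2 (Filter.Eventually.of_forall fun q hq => ?_)
    have hq' : z < q := hq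
    exact div_nonneg (hn q) (by linarith)
  · exact (Ioi_subset_Ioi hzw).eventuallyLE

include hm in
theorem meas_RR : Measurable RR := by
  unfold RR
  have : Measurable (fun q : ℝ => Wf q + Real.log q + gam) := by fun_prop
  exact this.div (by fun_prop)

include hC0 hm h1 in
theorem int_RR {z : ℝ} (hz : 0 ≤ z) (hz1 : z ≤ 1) : IntervalIntegrable RR volume 0 z ∧
    |∫ q in (0:ℝ)..z, RR q| ≤ C * Real.sqrt z := by
  have hi : IntervalIntegrable (fun q : ℝ => C / 2 * q ^ (-(1/2) : ℝ)) volume 0 z :=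
    (intervalIntegral.intervalIntegrable_rpow' (by norm_num)).const_mul _
  have hb : ∀ q ∈ Ioc 0 z, ‖RR q‖ ≤ C / 2 * q ^ (-(1/2) : ℝ) := by
    intro q hq
    obtain ⟨hq0, hq1⟩ := hq
    unfold RR
    rw [Real.norm_eq_abs, abs_div, abs_of_pos (show 0 < 2 * q by linarith)]
    have a1 := h1 q hq0 (hq1.trans hz1)
    have e : q ^ (-(1/2) : ℝ) = Real.sqrt q / q := by
      rw [Real.sqrt_eq_rpow, eq_div_iff hq0.ne']
      nth_rewrite 2 [← Real.rpow_one q]
      rw [← Real.rpow_add hq0]
      norm_num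
    rw [e]
    calc |Wf q + Real.log q + gam| / (2 * q) ≤ C * Real.sqrt q / (2 * q) := by gcongr
      _ = _ := by field_simp
  have hint : IntervalIntegrable RR volume 0 z := by
    rw [intervalIntegrable_iff_integrableOn_Ioc_of_le hz] at hi ⊢
    refine Integrable.mono' hi (meas_RR hm).aestronglyMeasurable ?_
    exact (ae_restrict_iff' measurableSet_Ioc).2 (Filter.Eventually.of_forall hb)
  refine ⟨hint, ?_⟩
  have := intervalIntegral.norm_integral_le_of_norm_le hz
    (Filter.Eventually.of_forall fun q hq => hb q hq) hi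
  rw [Real.norm_eq_abs] at this
  refine this.trans (le_of_eq ?_)
  rw [intervalIntegral.integral_const_mul, integral_rpow (Or.inl (by norm_num))]
  have e1 : (-(1/2) : ℝ) + 1 = 1/2 := by norm_num
  rw [e1, ← Real.sqrt_eq_rpow, ← Real.sqrt_eq_rpow, Real.sqrt_zero]
  ring

include hC0 hm hn h1 h2 in
theorem MM_eq {z : ℝ} (hz : 0 < z) (hz1 : z ≤ 1) :
    MM z = MM 1 + (∫ q in (0:ℝ)..1, RR q) - (∫ q in (0:ℝ)..z, RR q) +
      (Real.log z ^ 2 / 4 + gam * Real.log z / 2) := by
  have e1 : MM z = (∫ q in z..1, Wf q / (2 * q)) + MM 1 := by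
    unfold MM
    rw [intervalIntegral.integral_of_le hz1, ← setIntegral_union]
    · rw [Ioc_union_Ioi_eq_Ioi hz1]
    · exact Ioc_disjoint_Ioi le_rfl
    · exact measurableSet_Ioi
    · exact int_mid C hC0 hm hn h1 hz
    · exact (int_ge C hC0 hm hn h2 le_rfl).1
  have i1 : IntervalIntegrable RR volume 0 1 := (int_RR C hC0 hm h1 zero_le_one le_rfl).1
  have i2 : IntervalIntegrable RR volume 0 z := (int_RR C hC0 hm h1 hz.le hz1).1
  have i3 : IntervalIntegrable RR volume z 1 := i2.symm.trans i1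
  have e2 : (∫ q in (0:ℝ)..1, RR q) - (∫ q in (0:ℝ)..z, RR q) = ∫ q in z..1, RR q :=
    intervalIntegral.integral_interval_sub_left i1 i2
  have i4 : IntervalIntegrable (fun q => (Real.log q + gam) / (2 * q)) volume z 1 := by
    apply ContinuousOn.intervalIntegrable
    rw [uIcc_of_le hz1]
    intro q hq
    have hq0 : 0 < q := lt_of_lt_of_le hz hq.1
    apply ContinuousAt.continuousWithinAt
    have : ContinuousAt Real.log q := Real.continuousAt_log hq0.ne'
    exact (this.add continuousAt_const).div (by fun_prop) (by positivity)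
  have e3 : (∫ q in z..1, Wf q / (2 * q)) = (∫ q in z..1, RR q) -
      ∫ q in z..1, (Real.log q + gam) / (2 * q) := by
    rw [← intervalIntegral.integral_sub i3 i4]
    apply intervalIntegral.integral_congr
    intro q _
    simp only [RR]
    ring
  have e4 : (∫ q in z..1, (Real.log q + gam) / (2 * q)) =
      (Real.log 1 ^ 2 / 4 + gam * Real.log 1 / 2) - (Real.log z ^ 2 / 4 + gam * Real.log z / 2) := by
    apply intervalIntegral.integral_eq_sub_of_hasDerivAt (f := fun q =>
      Real.log q ^ 2 / 4 + gam * Real.log q / 2) _ i4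
    intro q hq
    rw [uIcc_of_le hz1] at hq
    have hq0 : 0 < q := lt_of_lt_of_le hz hq.1
    have d1 := Real.hasDerivAt_log hq0.ne'
    have d2 := ((d1.pow 2).div_const 4).add ((d1.const_mul gam).div_const 2)
    refine d2.congr_deriv ?_
    field_simp
    push_cast
    ring
  rw [e1, e3, e4, ← e2, Real.log_one]
  ring

end

theorem Nf_eq (y : ℝ) : Nf y = MM (Real.exp (-(2 * y) - gam)) := rfl

theorem gam_nonneg : 0 ≤ gam := by
  have := Real.one_half_lt_eulerMascheroniConstant
  unfold gam
  linarith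

theorem gam_le : gam ≤ 1 := by
  have := Real.eulerMascheroniConstant_lt_two_thirds
  unfold gam
  linarith

theorem sq_le_exp {t : ℝ} (ht : 0 ≤ t) : t ^ 2 ≤ 128 * Real.exp (t / 8) := by
  have := Real.quadratic_le_exp_of_nonneg (show 0 ≤ t / 8 by linarith)
  nlinarith

theorem thm (was : G_WAS) : G_NAS := by
  obtain ⟨hm, hn, C, h1, h2⟩ := was
  have hC0 : 0 ≤ C := by
    have := h1 1 one_pos le_rfl
    rw [Real.sqrt_one, mul_one] at this
    exact (abs_nonneg _).trans this
  have hmono : Monotone Nf := by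
    intro y y' hy
    rw [Nf_eq, Nf_eq]
    apply MM_anti C hC0 hm hn h1 h2 (Real.exp_pos _)
    apply Real.exp_le_exp.2
    linarith
  have hnn : ∀ y, 0 ≤ Nf y := fun y => by
    rw [Nf_eq]
    exact MM_nonneg hn (Real.exp_pos _)
  set C0 : ℝ := MM 1 + (∫ q in (0:ℝ)..1, RR q) - gam ^ 2 / 4 with hC0def
  have hg0 := gam_nonneg
  have hg1 := gam_le
  -- large `y`
  have hbig : ∀ y, -gam / 2 ≤ y → |Nf y - (y ^ 2 + C0)| ≤ C * Real.exp (-(y / 8)) := by
    intro y hy
    have hz1 : Real.exp (-(2 * y) - gam) ≤ 1 := by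
      rw [← Real.exp_zero]
      apply Real.exp_le_exp.2
      linarith
    rw [Nf_eq, MM_eq C hC0 hm hn h1 h2 (Real.exp_pos _) hz1, Real.log_exp]
    have hE := (int_RR C hC0 hm h1 (Real.exp_pos (-(2 * y) - gam)).le hz1).2
    set E := ∫ q in (0:ℝ)..(Real.exp (-(2 * y) - gam)), RR q with hEdef
    have e : MM 1 + (∫ q in (0:ℝ)..1, RR q) - E + ((-(2 * y) - gam) ^ 2 / 4 +
        gam * (-(2 * y) - gam) / 2) - (y ^ 2 + C0) = -E := by
      rw [hC0def]
      ring
    rw [e, abs_neg]
    refine hE.trans ?_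
    have hs : Real.sqrt (Real.exp (-(2 * y) - gam)) = Real.exp (-y - gam / 2) := by
      rw [Real.sqrt_eq_iff_mul_self_eq (Real.exp_pos _).le (Real.exp_pos _).le, ← Real.exp_add]
      congr 1
      ring
    rw [hs]
    gcongr
    linarith
  -- small `y`
  have hsm : ∀ y, y ≤ -gam / 2 → Nf y ≤ C / 2 * Real.exp (2 * y + gam) := by
    intro y hy
    have hz1 : 1 ≤ Real.exp (-(2 * y) - gam) := by
      rw [← Real.exp_zero]
      apply Real.exp_le_exp.2
      linarith
    rw [Nf_eq]
    refine (int_ge C hC0 hm hn h2 hz1).2.trans (le_of_eq ?_)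
    have : Real.exp (2 * y + gam) = (Real.exp (-(2 * y) - gam))⁻¹ := by
      rw [← Real.exp_neg]
      congr 1
      ring
    rw [this]
    field_simp
  have hall : ∀ y, |Nf y - (y ^ 2 + C0)| ≤ (C + 128 + |C0|) * Real.exp (-(y / 8)) := by
    intro y
    rcases le_total (-gam / 2) y with hy | hy
    · refine (hbig y hy).trans ?_
      have := abs_nonneg C0
      gcongr
      linarith
    · have a1 := hsm y hy
      have a2 : Real.exp (2 * y + gam) ≤ 1 := by
        rw [← Real.exp_zero]
        apply Real.exp_le_exp.2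
        linarith
      have a3 : Nf y ≤ C / 2 := by
        refine a1.trans ?_
        have := mul_le_mul_of_nonneg_left a2 (show 0 ≤ C / 2 by linarith)
        linarith
      have a4 := hnn y
      have a5 : y ^ 2 ≤ 128 * Real.exp (-(y / 8)) := by
        have := sq_le_exp (show 0 ≤ -y by linarith)
        rw [neg_sq] at this
        rw [show -(y / 8) = -y / 8 by ring]
        exact this
      have a6 : 1 ≤ Real.exp (-(y / 8)) := by
        apply Real.one_le_exp
        linarith
      have a7 := abs_nonneg C0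
      have a8 := le_abs_self C0
      have a9 := neg_abs_le C0
      have a10 : C ≤ C * Real.exp (-(y / 8)) := by nlinarith
      have a11 : |C0| ≤ |C0| * Real.exp (-(y / 8)) := by nlinarith
      have a12 : 0 ≤ y ^ 2 := sq_nonneg y
      rw [abs_le]
      constructor
      · nlinarith
      · nlinarith
  refine ⟨fun z hz => int_all C hC0 hm hn h1 h2 hz, hmono.measurable, hnn, ?_, C0, _, hall⟩
  refine ⟨C + 256 + 2 * |C0| + 2 * Nf 0, fun y => ?_⟩
  rw [abs_of_nonneg (hnn y)]
  have b0 := hnn 0
  have b1 := abs_nonneg C0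
  have b2 := Real.exp_pos (y / 8)
  rcases le_total 0 y with hy | hy
  · have a1 := hbig y (by linarith)
    have a2 := (abs_le.1 a1).2
    have a3 := sq_le_exp hy
    have a4 : 1 ≤ Real.exp (y / 8) := Real.one_le_exp (by linarith)
    have a5 : Real.exp (-(y / 8)) ≤ Real.exp (y / 8) := Real.exp_le_exp.2 (by linarith)
    have a6 := le_abs_self C0
    have a7 : C * Real.exp (-(y / 8)) ≤ C * Real.exp (y / 8) := by gcongr
    have a8 : |C0| ≤ |C0| * Real.exp (y / 8) := by nlinarith
    have a9 : 0 ≤ Nf 0 * Real.exp (y / 8) := by positivity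
    nlinarith
  · rcases le_total (-1) y with hy1 | hy1
    · have a1 := hmono hy
      have a2 : 1 / 2 ≤ Real.exp (y / 8) := by
        have := Real.add_one_le_exp (y / 8)
        linarith
      have a3 : 0 ≤ C * Real.exp (y / 8) := by positivity
      have a4 : 0 ≤ |C0| * Real.exp (y / 8) := by positivity
      nlinarith
    · have a1 := hsm y (by linarith)
      have a2 : Real.exp (2 * y + gam) ≤ Real.exp (y / 8) := Real.exp_le_exp.2 (by linarith)
      have a3 : C / 2 * Real.exp (2 * y + gam) ≤ C / 2 * Real.exp (y / 8) := by gcongr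
      have a4 : 0 ≤ |C0| * Real.exp (y / 8) := by positivity
      have a5 : 0 ≤ Nf 0 * Real.exp (y / 8) := by positivity
      have a6 : 0 ≤ C * Real.exp (y / 8) := by positivity
      nlinarith

end EC237.PB.PkNAS
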